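import Mathlib
import Pool.Agent.Work.MP_56168e_lc.AD.Main

set_option autoImplicit false

namespace Pool.Agent.Results.MP_56168e_lc.AlmostDisjoint

open Finset Pool.Agent.Work.MP_56168e_lc Pool.Agent.Work.MP_56168e_lc.AD

/-- a density on the cube -/
def IsDensity {n : ℕ} (φ : (Fin n → Bool) → ℝ) : Prop :=
  (∀ x, 0 ≤ φ x) ∧ (∑ x, φ x) = (2 : ℝ) ^ n

/-- all nonempty Fourier coefficients of `φ` are at most `ε` in absolute value -/
def Biased {n : ℕ} (ε : ℝ) (φ : (Fin n → Bool) → ℝ) : Prop :=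
  ∀ S : Finset (Fin n), S.Nonempty →
    |(∑ x, φ x * ∏ i ∈ S, (if x i = true then (-1 : ℝ) else 1)) / (2 : ℝ) ^ n| ≤ ε

/-- the ±1-valued function of the DNF with terms `T j` (partial assignments) -/
noncomputable def val {n r : ℕ} (T : Fin r → Fin n → Option Bool) (x : Fin n → Bool) : ℝ :=
  if ∃ j : Fin r, ∀ i : Fin n, ∀ b : Bool, T j i = some b → x i = b then (-1 : ℝ) else 1

/-- `φ` fools `f` with error `δ` -/
def Fools {n : ℕ} (δ : ℝ) (φ f : (Fin n → Bool) → ℝ) : Prop :=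
  |(∑ x, f x) / (2 : ℝ) ^ n - (∑ x, φ x * f x) / (2 : ℝ) ^ n| ≤ δ

/-- number of variables of the term `P` outside `H` -/
def widthOff {n : ℕ} (H : Finset (Fin n)) (P : Fin n → Option Bool) : ℕ :=
  ((univ : Finset (Fin n)).filter (fun v => v ∉ H ∧ P v ≠ none)).card

/-- number of common variables of the terms `P` and `Q` outside `H` -/
def commonOff {n : ℕ} (H : Finset (Fin n)) (P Q : Fin n → Option Bool) : ℕ :=
  ((univ : Finset (Fin n)).filter (fun v => v ∉ H ∧ P v ≠ none ∧ Q v ≠ none)).card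

lemma dens_of {n : ℕ} {ε : ℝ} {φ : (Fin n → Bool) → ℝ} (h1 : IsDensity φ) (h2 : Biased ε φ) :
    Dens ε φ := by
  refine ⟨h1.1, ?_, fun S hS => h2 S hS⟩
  unfold ex
  rw [h1.2]
  exact div_self (by positivity)

/-- the family padded by empty terms -/
def pad {n r : ℕ} (s : ℕ) (T : Fin r → Fin n → Option Bool) (k : Fin s) : PA n :=
  if h : (k : ℕ) < r then T ⟨k, h⟩ else fun _ => none

lemma pad_eq {n r s : ℕ} (T : Fin r → Fin n → Option Bool) {k : Fin s} (h : (k : ℕ) < r) :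
    pad s T k = T ⟨k, h⟩ := by
  unfold pad
  rw [dif_pos h]

lemma val_eq {n r s : ℕ} (hrs : r ≤ s) (T : Fin r → Fin n → Option Bool) (x : Fin n → Bool) :
    val T x = 2 * nz (pad s T) ((univ : Finset (Fin s)).filter (fun k : Fin s => k.val < r)) x - 1 := by
  unfold val nz Sat
  by_cases h : ∃ j : Fin r, ∀ i : Fin n, ∀ b : Bool, T j i = some b → x i = b
  · have h' : ∃ k ∈ (univ : Finset (Fin s)).filter (fun k : Fin s => k.val < r), ∀ i : Fin n,
        ∀ b : Bool, pad s T k i = some b → x i = b := by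
      obtain ⟨j, hj⟩ := h
      have hjr : ((⟨j, j.2.trans_le hrs⟩ : Fin s) : ℕ) < r := j.2
      refine ⟨⟨j, j.2.trans_le hrs⟩, mem_filter.2 ⟨mem_univ _, hjr⟩, ?_⟩
      rw [pad_eq T hjr]
      exact hj
    rw [if_pos h, if_pos h']
    norm_num
  · have h' : ¬ ∃ k ∈ (univ : Finset (Fin s)).filter (fun k : Fin s => k.val < r), ∀ i : Fin n,
        ∀ b : Bool, pad s T k i = some b → x i = b := by
      rintro ⟨k, hk, hj⟩
      have hkr : (k : ℕ) < r := (mem_filter.1 hk).2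
      rw [pad_eq T hkr] at hj
      exact h ⟨_, hj⟩
    rw [if_neg h, if_neg h']
    norm_num

lemma card_sdiff_dom {n : ℕ} (H : Finset (Fin n)) (P : Fin n → Option Bool) :
    (dom P \ H).card = widthOff H P := by
  unfold widthOff
  congr 1
  ext v
  rw [mem_sdiff, mem_dom, mem_filter]
  constructor
  · rintro ⟨h1, h2⟩
    exact ⟨mem_univ v, h2, h1⟩
  · rintro ⟨_, h1, h2⟩
    exact ⟨h2, h1⟩

lemma card_inter_dom {n : ℕ} (H : Finset (Fin n)) (P Q : Fin n → Option Bool) :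
    ((dom P \ H) ∩ (dom Q \ H)).card = commonOff H P Q := by
  unfold commonOff
  congr 1
  ext v
  rw [mem_inter, mem_sdiff, mem_sdiff, mem_dom, mem_dom, mem_filter]
  constructor
  · rintro ⟨⟨h1, h2⟩, h3, _⟩
    exact ⟨mem_univ v, h2, h1, h3⟩
  · rintro ⟨_, h1, h2, h3⟩
    exact ⟨⟨h2, h1⟩, h3, h1⟩

/-- Q1 for the DNFs whose long terms are almost disjoint outside a small set of variables -/
theorem result (l : ℕ) (δ A : ℝ) (hδ : 0 < δ) (hδ1 : δ ≤ 1) (hA : 0 ≤ A) :
    ∃ C : ℝ, 0 < C ∧ ∃ s0 : ℕ, ∀ (n s r : ℕ) (T : Fin r → Fin n → Option Bool)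
      (H : Finset (Fin n)) (φ : (Fin n → Bool) → ℝ), s0 ≤ s → r ≤ s →
      (H.card : ℝ) ≤ A * Real.log s →
      (∀ i j : Fin r, i ≠ j →
        Real.log s / Real.log (Real.log s) ^ 3 < widthOff H (T i) →
        Real.log s / Real.log (Real.log s) ^ 3 < widthOff H (T j) →
        commonOff H (T i) (T j) ≤ l) →
      IsDensity φ → Biased ((s : ℝ) ^ (-C)) φ → Fools δ φ (val T) := by
  obtain ⟨C, hC, s0, h⟩ := main l hδ hδ1 hA
  refine ⟨C, hC, s0, ?_⟩
  intro n s r T H φ hs hrs hH hT hφ1 hφ2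
  have hφ := dens_of hφ1 hφ2
  have h1 := h n s (pad s T) ((univ : Finset (Fin s)).filter (fun k : Fin s => k.val < r)) H φ hs hH
    (by
      intro i hi j hj hij hwi hwj
      have hir : (i : ℕ) < r := (mem_filter.1 hi).2
      have hjr : (j : ℕ) < r := (mem_filter.1 hj).2
      rw [pad_eq T hir, card_sdiff_dom] at hwi
      rw [pad_eq T hjr, card_sdiff_dom] at hwj
      rw [pad_eq T hir, pad_eq T hjr, card_inter_dom]
      refine hT _ _ ?_ hwi hwj
      intro he
      exact hij (Fin.ext (Fin.mk.inj he))) hφ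
  set Z := (univ : Finset (Fin s)).filter (fun k : Fin s => k.val < r) with hZ
  have h2 : (∑ x, val T x) / (2 : ℝ) ^ n = 2 * ex (nz (pad s T) Z) - 1 := by
    have : (∑ x, val T x) / (2 : ℝ) ^ n = ex (fun x => 2 * nz (pad s T) Z x - 1) := by
      unfold ex
      simp only [val_eq hrs T, ← hZ]
    rw [this, ex_sub (fun x => 2 * nz (pad s T) Z x) (fun _ => 1), ex_smul, ex_const]
  have h3 : (∑ x, φ x * val T x) / (2 : ℝ) ^ n = 2 * pe φ (nz (pad s T) Z) - 1 := by
    have : (∑ x, φ x * val T x) / (2 : ℝ) ^ n = pe φ (fun x => 2 * nz (pad s T) Z x - 1) := by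
      unfold pe ex
      simp only [val_eq hrs T, ← hZ]
    rw [this, pe_sub φ (fun x => 2 * nz (pad s T) Z x) (fun _ => 1), pe_smul, pe_const hφ]
  unfold Fools
  rw [h2, h3, show 2 * ex (nz (pad s T) Z) - 1 - (2 * pe φ (nz (pad s T) Z) - 1)
    = -(2 * (pe φ (nz (pad s T) Z) - ex (nz (pad s T) Z))) by ring, abs_neg, abs_mul]
  rw [abs_of_pos (by norm_num : (0 : ℝ) < 2)]
  linarith

end Pool.Agent.Results.MP_56168e_lc.AlmostDisjoint
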