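import Mathlib
import Pool.Agent.Work.MP_56168e_lc.Amb

set_option autoImplicit false

namespace Pool.Agent.Results.MP_56168e_lc.FewSatisfied

open Finset Pool.Agent.Work.MP_56168e_lc

/-- a density on the cube -/
def IsDensity {n : ℕ} (φ : (Fin n → Bool) → ℝ) : Prop :=
  (∀ x, 0 ≤ φ x) ∧ (∑ x, φ x) = (2 : ℝ) ^ n

/-- all nonempty Fourier coefficients of `φ` are at most `ε` in absolute value -/
def Biased {n : ℕ} (ε : ℝ) (φ : (Fin n → Bool) → ℝ) : Prop :=
  ∀ S : Finset (Fin n), S.Nonempty →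
    |(∑ x, φ x * ∏ i ∈ S, (if x i = true then (-1 : ℝ) else 1)) / (2 : ℝ) ^ n| ≤ ε

/-- the term `P` (a partial assignment) is satisfied by `x` -/
def Holds {n : ℕ} (P : Fin n → Option Bool) (x : Fin n → Bool) : Prop :=
  ∀ i : Fin n, ∀ b : Bool, P i = some b → x i = b

open Classical in
/-- the ±1-valued function of the DNF with terms `T j` -/
noncomputable def val {n s : ℕ} (T : Fin s → Fin n → Option Bool) (x : Fin n → Bool) : ℝ :=
  if ∃ j : Fin s, Holds (T j) x then (-1 : ℝ) else 1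

open Classical in
/-- number of satisfied terms -/
noncomputable def nsat {n s : ℕ} (T : Fin s → Fin n → Option Bool) (x : Fin n → Bool) : ℕ :=
  ((univ : Finset (Fin s)).filter (fun j => Holds (T j) x)).card

/-- `φ` fools `f` with error `δ` -/
def Fools {n : ℕ} (δ : ℝ) (φ f : (Fin n → Bool) → ℝ) : Prop :=
  |(∑ x, f x) / (2 : ℝ) ^ n - (∑ x, φ x * f x) / (2 : ℝ) ^ n| ≤ δ

/-- the exponent `1000 log(16(s+1)/δ) loglog(16(s+1)/δ) log(16M/δ)` -/
noncomputable def expt (s : ℕ) (M δ : ℝ) : ℝ :=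
  1000 * Real.log (16 * (s + 1) / δ) * Real.log (Real.log (16 * (s + 1) / δ)) *
    Real.log (16 * M / δ)

lemma dens_of {n : ℕ} {ε : ℝ} {φ : (Fin n → Bool) → ℝ} (h1 : IsDensity φ) (h2 : Biased ε φ) :
    Dens ε φ := by
  refine ⟨h1.1, ?_, fun S hS => h2 S hS⟩
  unfold ex
  rw [h1.2]
  exact div_self (by positivity)

lemma fools_of {n s : ℕ} (T : Fin s → Fin n → Option Bool) {ε δ : ℝ}
    {φ : (Fin n → Bool) → ℝ} (hφ : Dens ε φ)
    (h : |pe φ (fi (List.ofFn T)) - ex (fi (List.ofFn T))| ≤ δ / 2) : Fools δ φ (val T) := by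
  classical
  have h1 : ∀ x, val T x = 1 - 2 * fi (List.ofFn T) x := by
    intro x
    have key : (∃ j : Fin s, Holds (T j) x) ↔ Ev (List.ofFn T) x := by
      unfold Ev
      constructor
      · rintro ⟨j, hj⟩
        exact ⟨T j, (List.mem_ofFn' T _).mpr ⟨j, rfl⟩, hj⟩
      · rintro ⟨P, hP, hs⟩
        obtain ⟨j, rfl⟩ := (List.mem_ofFn' T _).mp hP
        exact ⟨j, hs⟩
    unfold val fi
    by_cases h : ∃ j : Fin s, Holds (T j) x
    · rw [if_pos h, if_pos (key.mp h)]
      norm_num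
    · rw [if_neg h, if_neg fun h' => h (key.mpr h')]
      norm_num
  have h2 : (∑ x, val T x) / (2 : ℝ) ^ n = 1 - 2 * ex (fi (List.ofFn T)) := by
    have : (∑ x, val T x) / (2 : ℝ) ^ n = ex (fun x => 1 - 2 * fi (List.ofFn T) x) := by
      unfold ex
      simp only [h1]
    rw [this, ex_sub (fun _ => 1) (fun x => 2 * fi (List.ofFn T) x), ex_smul, ex_const]
  have h3 : (∑ x, φ x * val T x) / (2 : ℝ) ^ n = 1 - 2 * pe φ (fi (List.ofFn T)) := by
    have : (∑ x, φ x * val T x) / (2 : ℝ) ^ n = pe φ (fun x => 1 - 2 * fi (List.ofFn T) x) := by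
      unfold pe ex
      simp only [h1]
    rw [this, pe_sub φ (fun _ => 1) (fun x => 2 * fi (List.ofFn T) x), pe_smul, pe_const hφ]
  unfold Fools
  rw [h2, h3, show 1 - 2 * ex (fi (List.ofFn T)) - (1 - 2 * pe φ (fi (List.ofFn T)))
    = 2 * (pe φ (fi (List.ofFn T)) - ex (fi (List.ofFn T))) by ring, abs_mul]
  rw [abs_of_pos (by norm_num : (0 : ℝ) < 2)]
  linarith

lemma zc_ofFn {n s : ℕ} (T : Fin s → Fin n → Option Bool) (x : Fin n → Bool) :
    zc (List.ofFn T) x = nsat T x := by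
  classical
  unfold zc nsat
  rw [List.map_ofFn, List.sum_ofFn, card_filter]
  push_cast
  refine sum_congr rfl fun j _ => ?_
  show ti (T j) x = _
  unfold ti
  by_cases h : Sat (T j) x
  · rw [if_pos h, if_pos (show Holds (T j) x from h)]
  · rw [if_neg h, if_neg (show ¬ Holds (T j) x from h)]

open Classical in
/-- if more than `M` terms are satisfied only with probability at most `exp (-expt)`, then
densities of bias at most `exp (-expt)` fool the DNF with error `δ`. -/
theorem result (n s : ℕ) (T : Fin s → Fin n → Option Bool) (M δ ε : ℝ)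
    (φ : (Fin n → Bool) → ℝ) (hM : 1 ≤ M) (hδ : 0 < δ) (hδ1 : δ ≤ 1) (hε0 : 0 ≤ ε)
    (hsat : (((univ : Finset (Fin n → Bool)).filter (fun x => M < nsat T x)).card : ℝ)
      / (2 : ℝ) ^ n ≤ Real.exp (-(expt s M δ)))
    (hε : ε ≤ Real.exp (-(expt s M δ))) (h1 : IsDensity φ) (h2 : Biased ε φ) :
    Fools δ φ (val T) := by
  have hφ := dens_of h1 h2
  have hexp : expo (List.ofFn T).length M (δ / 2) = expt s M δ := by
    unfold expo expt
    rw [List.length_ofFn]
    have e1 : 8 * ((s : ℝ) + 1) / (δ / 2) = 16 * (s + 1) / δ := by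
      field_simp
      ring
    have e2 : 8 * M / (δ / 2) = 16 * M / δ := by
      field_simp
      ring
    rw [e1, e2]
  refine fools_of T hφ (amb (List.ofFn T) hM (by linarith) (by linarith) ?_ hφ hε0 ?_)
  · rw [hexp]
    refine le_trans (le_of_eq ?_) hsat
    unfold ex
    rw [card_filter]
    push_cast
    congr 1
    refine sum_congr rfl fun x _ => ?_
    rw [zc_ofFn]
  · rw [hexp]
    exact hε

end Pool.Agent.Results.MP_56168e_lc.FewSatisfied
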