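import Mathlib
import Pool.Agent.Work.MP_56168e_lc.ReadK

set_option autoImplicit false

namespace Pool.Agent.Results.MP_56168e_lc.LowDependency

open Finset Pool.Agent.Work.MP_56168e_lc

/-- a density on the cube -/
def IsDensity {n : ℕ} (φ : (Fin n → Bool) → ℝ) : Prop :=
  (∀ x, 0 ≤ φ x) ∧ (∑ x, φ x) = (2 : ℝ) ^ n

/-- all nonempty Fourier coefficients of `φ` are at most `ε` in absolute value -/
def Biased {n : ℕ} (ε : ℝ) (φ : (Fin n → Bool) → ℝ) : Prop :=
  ∀ S : Finset (Fin n), S.Nonempty →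
    |(∑ x, φ x * ∏ i ∈ S, (if x i = true then (-1 : ℝ) else 1)) / (2 : ℝ) ^ n| ≤ ε

/-- the ±1-valued function of the DNF with terms `T j` (partial assignments) -/
noncomputable def val {n s : ℕ} (T : Fin s → Fin n → Option Bool) (x : Fin n → Bool) : ℝ :=
  if ∃ j : Fin s, ∀ i : Fin n, ∀ b : Bool, T j i = some b → x i = b then (-1 : ℝ) else 1

/-- `φ` fools `f` with error `δ` -/
def Fools {n : ℕ} (δ : ℝ) (φ f : (Fin n → Bool) → ℝ) : Prop :=
  |(∑ x, f x) / (2 : ℝ) ^ n - (∑ x, φ x * f x) / (2 : ℝ) ^ n| ≤ δ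

/-- number of literals of a term -/
def width {n : ℕ} (P : Fin n → Option Bool) : ℕ :=
  ((univ : Finset (Fin n)).filter (fun v => P v ≠ none)).card

open Classical in
/-- number of the other terms with at most `w` literals that share with term `i` a variable
outside `H` -/
noncomputable def deg {n s : ℕ} (T : Fin s → Fin n → Option Bool) (H : Finset (Fin n)) (w : ℝ)
    (i : Fin s) : ℕ :=
  ((univ : Finset (Fin s)).filter
    (fun j => i ≠ j ∧ (width (T j) : ℝ) ≤ w ∧ ∃ v, v ∉ H ∧ T i v ≠ none ∧ T j v ≠ none)).card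

/-- number of terms in which the variable `v` occurs -/
def reads {n s : ℕ} (T : Fin s → Fin n → Option Bool) (v : Fin n) : ℕ :=
  ((univ : Finset (Fin s)).filter (fun j => T j v ≠ none)).card

lemma dens_of {n : ℕ} {ε : ℝ} {φ : (Fin n → Bool) → ℝ} (h1 : IsDensity φ) (h2 : Biased ε φ) :
    Dens ε φ := by
  refine ⟨h1.1, ?_, fun S hS => h2 S hS⟩
  unfold ex
  rw [h1.2]
  exact div_self (by positivity)

lemma fools_of {n s : ℕ} (T : Fin s → Fin n → Option Bool) {ε δ : ℝ}
    {φ : (Fin n → Bool) → ℝ} (hφ : Dens ε φ)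
    (h : |pe φ (nz T univ) - ex (nz T univ)| ≤ δ / 2) : Fools δ φ (val T) := by
  have h1 : ∀ x, val T x = 2 * nz T univ x - 1 := by
    intro x
    unfold val nz Sat
    by_cases h : ∃ j : Fin s, ∀ i : Fin n, ∀ b : Bool, T j i = some b → x i = b
    · have h' : ∃ j ∈ (univ : Finset (Fin s)), ∀ i : Fin n, ∀ b : Bool,
          T j i = some b → x i = b := by
        obtain ⟨j, hj⟩ := h
        exact ⟨j, mem_univ j, hj⟩
      rw [if_pos h, if_pos h']
      norm_num
    · have h' : ¬ ∃ j ∈ (univ : Finset (Fin s)), ∀ i : Fin n, ∀ b : Bool,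
          T j i = some b → x i = b := by
        rintro ⟨j, -, hj⟩
        exact h ⟨j, hj⟩
      rw [if_neg h, if_neg h']
      norm_num
  have h2 : (∑ x, val T x) / (2 : ℝ) ^ n = 2 * ex (nz T univ) - 1 := by
    have : (∑ x, val T x) / (2 : ℝ) ^ n = ex (fun x => 2 * nz T univ x - 1) := by
      unfold ex
      simp only [h1]
    rw [this, ex_sub (fun x => 2 * nz T univ x) (fun _ => 1), ex_smul, ex_const]
  have h3 : (∑ x, φ x * val T x) / (2 : ℝ) ^ n = 2 * pe φ (nz T univ) - 1 := by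
    have : (∑ x, φ x * val T x) / (2 : ℝ) ^ n = pe φ (fun x => 2 * nz T univ x - 1) := by
      unfold pe ex
      simp only [h1]
    rw [this, pe_sub φ (fun x => 2 * nz T univ x) (fun _ => 1), pe_smul, pe_const hφ]
  unfold Fools
  rw [h2, h3, show 2 * ex (nz T univ) - 1 - (2 * pe φ (nz T univ) - 1)
    = -(2 * (pe φ (nz T univ) - ex (nz T univ))) by ring, abs_neg, abs_mul]
  rw [abs_of_pos (by norm_num : (0 : ℝ) < 2)]
  linarith

lemma nbH_deg {n s : ℕ} (T : Fin s → Fin n → Option Bool) (H : Finset (Fin n)) (i : Fin s)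
    (W : ℕ) {w : ℝ} (hW : (W : ℝ) ≤ w) :
    (nbH T H ((univ : Finset (Fin s)).filter (fun i => (dom (T i)).card ≤ W)) i).card
      ≤ deg T H w i := by
  classical
  unfold nbH deg
  refine card_le_card fun j hj => ?_
  rw [mem_filter, mem_filter] at hj
  obtain ⟨⟨_, h0⟩, h1, h2⟩ := hj
  rw [mem_filter]
  refine ⟨mem_univ j, h1, ?_, ?_⟩
  · have h3 : width (T j) ≤ W := h0
    have h4 : (width (T j) : ℝ) ≤ W := by exact_mod_cast h3
    exact h4.trans hW
  · rw [Finset.not_disjoint_iff] at h2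
    obtain ⟨v, hv1, hv2⟩ := h2
    rw [mem_sdiff, mem_dom] at hv1 hv2
    exact ⟨v, hv1.2, hv1.1, hv2.1⟩

/-- (1) quantitative theorem for DNFs of dependency degree `D` outside a set `H` of variables;
(2) in particular Q1 for DNFs with at most `s` terms in which all but `A log s` variables occur in
at most `exp (A sqrt (log s / log log s))` terms. -/
theorem result :
    (∃ C : ℝ, 0 < C ∧ ∀ (n s D : ℕ) (T : Fin s → Fin n → Option Bool) (H : Finset (Fin n))
      (δ ε : ℝ) (φ : (Fin n → Bool) → ℝ), 1 ≤ s → 0 < δ → δ ≤ 1 → 0 ≤ ε →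
      (∀ i, (width (T i) : ℝ) ≤ 2 * Real.log (16 * (s + 1) / δ) →
        deg T H (2 * Real.log (16 * (s + 1) / δ)) i ≤ D) →
      ε ≤ Real.exp (-(C * ((H.card : ℝ) + Real.log (16 / δ) * Real.log (16 * (s + 1) / δ)
        + (Real.log (16 / δ) * Real.log (16 * (D + 1) / δ)) ^ 2
          * Real.log (Real.log (16 / δ) * Real.log (16 * (D + 1) / δ))))) →
      IsDensity φ → Biased ε φ → Fools δ φ (val T)) ∧
    (∀ δ A : ℝ, 0 < δ → δ ≤ 1 → 1 ≤ A → ∃ C : ℝ, 0 < C ∧ ∃ s0 : ℕ,
      ∀ (n s r : ℕ) (T : Fin r → Fin n → Option Bool) (H : Finset (Fin n))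
        (φ : (Fin n → Bool) → ℝ), s0 ≤ s → r ≤ s → (H.card : ℝ) ≤ A * Real.log s →
        (∀ v, v ∉ H → (reads T v : ℝ)
          ≤ Real.exp (A * Real.sqrt (Real.log s / Real.log (Real.log s)))) →
        IsDensity φ → Biased ((s : ℝ) ^ (-C)) φ → Fools δ φ (val T)) := by
  refine ⟨?_, ?_⟩
  · obtain ⟨C, hC, h⟩ := low_gen
    refine ⟨C, hC, ?_⟩
    intro n s D T H δ ε φ hs hδ hδ1 hε0 hD hε hφ1 hφ2
    have hφ := dens_of hφ1 hφ2
    refine fools_of T hφ (h n s D T H δ ε φ hs hδ hδ1 hε0 ?_ ?_ hφ)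
    · intro W hW i hi
      refine (nbH_deg T H i W hW).trans (hD i ?_)
      have h3 : width (T i) ≤ W := (mem_filter.mp hi).2
      have h4 : (width (T i) : ℝ) ≤ W := by exact_mod_cast h3
      exact h4.trans hW
    · unfold expL
      exact hε
  · intro δ A hδ hδ1 hA
    obtain ⟨C, hC, s0, hs0, h⟩ := read_k δ A hδ hδ1 hA
    refine ⟨C, hC, s0, ?_⟩
    intro n s r T H φ hs hrs hH hk hφ1 hφ2
    have hφ := dens_of hφ1 hφ2
    refine fools_of T hφ (h n s r T H φ hs hrs hH ?_ hφ)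
    intro v hv
    refine le_trans (le_of_eq ?_) (hk v hv)
    unfold reads
    congr 2
    ext j
    simp [mem_dom]

end Pool.Agent.Results.MP_56168e_lc.LowDependency
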