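import Mathlib
import Pool.Agent.Work.MP_56168e_lc.TS.Two

set_option autoImplicit false

namespace Pool.Agent.Results.MP_56168e_lc.TwoSided

open Finset Pool.Agent.Work.MP_56168e_lc Pool.Agent.Work.MP_56168e_lc.OS
open Pool.Agent.Work.MP_56168e_lc.TS

/-- a density on the cube -/
def IsDensity {n : ℕ} (φ : (Fin n → Bool) → ℝ) : Prop :=
  (∀ x, 0 ≤ φ x) ∧ (∑ x, φ x) = (2 : ℝ) ^ n

/-- all nonempty Fourier coefficients of `φ` are at most `ε` in absolute value -/
def Biased {n : ℕ} (ε : ℝ) (φ : (Fin n → Bool) → ℝ) : Prop :=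
  ∀ S : Finset (Fin n), S.Nonempty →
    |(∑ x, φ x * ∏ i ∈ S, (if x i = true then (-1 : ℝ) else 1)) / (2 : ℝ) ^ n| ≤ ε

/-- mean of `f` under the density `φ` -/
noncomputable def mean {n : ℕ} (φ f : (Fin n → Bool) → ℝ) : ℝ := (∑ x, φ x * f x) / (2 : ℝ) ^ n

/-- mean of `f` under the uniform distribution -/
noncomputable def avg {n : ℕ} (f : (Fin n → Bool) → ℝ) : ℝ := (∑ x, f x) / (2 : ℝ) ^ n

/-- some term of the DNF `T` (the terms are the assignments `T j`) is satisfied by `x` -/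
def Holds {n r : ℕ} (T : Fin r → Fin n → Option Bool) (x : Fin n → Bool) : Prop :=
  ∃ j : Fin r, ∀ i : Fin n, ∀ b : Bool, T j i = some b → x i = b

open Classical in
/-- the ±1-valued function of the DNF with terms `T j` -/
noncomputable def val {n r : ℕ} (T : Fin r → Fin n → Option Bool) (x : Fin n → Bool) : ℝ :=
  if Holds T x then (-1 : ℝ) else 1

/-- some DNF with at most `s` terms is true exactly where `f = -1` or exactly where `f = 1` -/
def SizeDNF {n : ℕ} (s : ℕ) (f : (Fin n → Bool) → ℝ) : Prop :=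
  ∃ r : ℕ, r ≤ s ∧ ∃ T : Fin r → Fin n → Option Bool,
    (∀ x, f x = val T x) ∨ (∀ x, f x = -val T x)

/-- `L = log (16 (s+1) / δ)` -/
noncomputable def len (s : ℕ) (δ : ℝ) : ℝ := Real.log (16 * (s + 1) / δ)

/-- the exponent `C L (log L) (1/δ + log L)^2` -/
noncomputable def expt (C : ℝ) (s : ℕ) (δ : ℝ) : ℝ :=
  C * len s δ * Real.log (len s δ) * (1 / δ + Real.log (len s δ)) ^ 2

lemma dens_of {n : ℕ} {ε : ℝ} {φ : (Fin n → Bool) → ℝ} (h1 : IsDensity φ) (h2 : Biased ε φ) :
    Dens (max ε 0) φ := by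
  refine ⟨h1.1, ?_, fun S hS => (h2 S hS).trans (le_max_left _ _)⟩
  unfold ex
  rw [h1.2]
  exact div_self (by positivity)

lemma val_eq {n r : ℕ} (T : Fin r → Fin n → Option Bool) (x : Fin n → Bool) :
    val T x = 1 - 2 * dn T x := by
  unfold val
  by_cases h : Holds T x
  · have h' : ∃ i, Sat (T i) x := h
    rw [if_pos h]
    unfold dn
    rw [if_pos h']
    norm_num
  · have h' : ¬ ∃ i, Sat (T i) x := h
    rw [if_neg h]
    unfold dn
    rw [if_neg h']
    norm_num

lemma avg_val {n r : ℕ} (T : Fin r → Fin n → Option Bool) : avg (val T) = 1 - 2 * ex (dn T) := by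
  have : avg (val T) = ex (fun x => 1 - 2 * dn T x) := by
    unfold avg ex
    simp only [val_eq]
  rw [this, ex_sub (fun _ => 1) (fun x => 2 * dn T x), ex_smul, ex_const]

lemma mean_val {n r : ℕ} {ε : ℝ} {φ : (Fin n → Bool) → ℝ} (hφ : Dens ε φ)
    (T : Fin r → Fin n → Option Bool) : mean φ (val T) = 1 - 2 * pe φ (dn T) := by
  have : mean φ (val T) = pe φ (fun x => 1 - 2 * dn T x) := by
    unfold mean pe ex
    simp only [val_eq]
  rw [this, pe_sub φ (fun _ => 1) (fun x => 2 * dn T x), pe_smul, pe_const hφ]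

lemma log_len {s : ℕ} {δ : ℝ} (hδ : 0 < δ) (hδ1 : δ ≤ 1) : 1 ≤ Real.log (len s δ) := by
  have h1 : 4 * Real.log 2 ≤ len s δ := by
    unfold len
    have e : 4 * Real.log 2 = Real.log 16 := by
      rw [show (16 : ℝ) = 2 ^ 4 by norm_num, Real.log_pow]
      norm_num
    rw [e]
    refine Real.log_le_log (by norm_num) ?_
    rw [le_div_iff₀ hδ]
    have : (0 : ℝ) ≤ (s : ℝ) := Nat.cast_nonneg s
    nlinarith
  have h2 := Real.log_two_gt_d9
  rw [Real.le_log_iff_exp_le (by linarith)]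
  have := Real.exp_one_lt_d9
  linarith

lemma expt_mono {C δ : ℝ} (hC : 0 < C) (hδ : 0 < δ) (hδ1 : δ ≤ 1) {r s : ℕ} (h : r ≤ s) :
    expt C r δ ≤ expt C s δ := by
  have hr : (r : ℝ) ≤ s := by exact_mod_cast h
  have hr0 : (0 : ℝ) ≤ r := Nat.cast_nonneg r
  have h1 : len r δ ≤ len s δ := by
    unfold len
    refine Real.log_le_log (by positivity) ?_
    exact div_le_div_of_nonneg_right (by linarith) hδ.le
  have h2 := log_len (s := r) hδ hδ1
  have h3 : 0 < len r δ := by
    unfold len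
    apply Real.log_pos
    rw [lt_div_iff₀ hδ]
    linarith
  have h4 : Real.log (len r δ) ≤ Real.log (len s δ) := Real.log_le_log h3 h1
  have h5 : 0 ≤ 1 / δ := by positivity
  have h6 : C * len r δ ≤ C * len s δ := mul_le_mul_of_nonneg_left h1 hC.le
  have h7 : C * len r δ * Real.log (len r δ) ≤ C * len s δ * Real.log (len s δ) :=
    mul_le_mul h6 h4 (by linarith) (by nlinarith)
  have h8 : (1 / δ + Real.log (len r δ)) ^ 2 ≤ (1 / δ + Real.log (len s δ)) ^ 2 :=
    pow_le_pow_left₀ (by linarith) (by linarith) 2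
  unfold expt
  refine mul_le_mul h7 h8 (by positivity) ?_
  have h9 : 0 < len s δ := lt_of_lt_of_le h3 h1
  have h10 : 0 ≤ Real.log (len s δ) := by linarith
  positivity

/-- There is `C > 0` such that every density of bias at most `exp (-X)`,
`X = C L (log L) (1/δ + log L)^2`, `L = log (16 (s+1) / δ)`, fools within `δ` every function
computable by a DNF with at most `s` terms. -/
theorem result : ∃ C : ℝ, 0 < C ∧ ∀ (n s : ℕ) (δ ε : ℝ) (φ f : (Fin n → Bool) → ℝ),
    0 < δ → δ ≤ 1 → IsDensity φ → Biased ε φ → ε ≤ Real.exp (-(expt C s δ)) → SizeDNF s f →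
    |avg f - mean φ f| ≤ δ := by
  obtain ⟨C, hC, H⟩ := both
  refine ⟨C, hC, ?_⟩
  intro n s δ ε φ f hδ hδ1 hd hb hε hf
  obtain ⟨r, hr, T, hT⟩ := hf
  have hφ := dens_of hd hb
  have hε' : max ε 0 ≤ Real.exp (-(YY C r δ)) := by
    refine max_le ?_ (Real.exp_pos _).le
    refine hε.trans (Real.exp_le_exp.2 (neg_le_neg ?_))
    exact expt_mono hC hδ hδ1 hr
  have h1 := H n r T δ (max ε 0) φ hδ hδ1 (le_max_right _ _) hε' hφ
  have h2 : |avg (val T) - mean φ (val T)| ≤ δ := by
    rw [avg_val, mean_val hφ]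
    rw [abs_le] at h1 ⊢
    constructor <;> linarith [h1.1, h1.2]
  rcases hT with hT | hT
  · have e : f = val T := funext hT
    rw [e]
    exact h2
  · have e1 : avg f = -avg (val T) := by
      unfold avg
      rw [Finset.sum_congr rfl fun x _ => hT x, Finset.sum_neg_distrib, neg_div]
    have e2 : mean φ f = -mean φ (val T) := by
      unfold mean
      have e3 : ∑ x, φ x * f x = -∑ x, φ x * val T x := by
        rw [← Finset.sum_neg_distrib]
        exact Finset.sum_congr rfl fun x _ => by rw [hT x]; ring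
      rw [e3, neg_div]
    rw [e1, e2]
    rw [abs_le] at h2 ⊢
    constructor <;> linarith [h2.1, h2.2]

end Pool.Agent.Results.MP_56168e_lc.TwoSided
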